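import Mathlib
import Pool.Agent.H350R3.Klein.Fin

/-!
# The quotient group of a self-covering need not be a Poincaré duality group

Let `X` be the Klein bottle `K`, with fundamental group `π = ⟨a, b | b a b⁻¹ = a⁻¹⟩`. It has a
threefold self-covering `q : X → X` inducing `a ↦ a³`, `b ↦ a b` (up to a change of generators); take
`X' = X` and `h = id`. The intersection `G` of the images of the iterates is the infinite cyclic
central subgroup generated by `b²`, and `Q = π / G` is the infinite dihedral group. As `Q` has
torsion, `K(Q, 1)` is not finitely dominated. The last step is proved here from the Borsuk-Ulam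
theorem.
-/

set_option autoImplicit false

namespace Pool.Agent.Results.MP_ffafe4_gt.KleinBottle

open Topology Set Pool.Agent.H350R3.Klein

universe u v w

/-- There are a finite connected CW complex `X` (covered by the plane), a covering `q : X' → X` of
degree three and a base point preserving homotopy equivalence `h : X → X'` such that the subgroup
`G = ⋂_{k ≥ 1} im (h_#)^k` of `π₁(X)` is infinite cyclic, finitely presented and normal, but
`Q = π₁(X) / G` has an element of order two and no Eilenberg-MacLane space `K(Q, 1)` is finitely
dominated. -/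
theorem result :
    ∃ S : SelfCovering, CWComplex.Finite (univ : Set S.X) ∧
      (∃ p : ℝ × ℝ → S.X, IsCoveringMap p ∧ Function.Surjective p) ∧
      S.degree = 3 ∧
      Nonempty (S.G ≃* Multiplicative ℤ) ∧
      Group.IsFinitelyPresented S.G ∧
      ∃ _ : S.G.Normal,
        (∃ s : S.Pi1 ⧸ S.G, s ≠ 1 ∧ s * s = 1) ∧
        ∀ (Y : Type u) [TopologicalSpace Y],
          IsEilenbergMacLane.{u, 0, w} (S.Pi1 ⧸ S.G) Y → ¬ FinitelyDominated.{u, v} Y := by
  refine ⟨kleinSelf, kcw_finite, ⟨pr, pr_cov.isCoveringMap, pr_cov.surjective⟩, rfl, ⟨G_equiv⟩,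
    GG_fp, GG_normal, torsion_Q (hN := GG_normal), ?_⟩
  intro Y _ hY
  exact no_dom (hN := GG_normal) Y hY

end Pool.Agent.Results.MP_ffafe4_gt.KleinBottle
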